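import Pool.Agent.N703.HF.Spec2

/-!
# The fractional Haemers bounds are Kneser-normalised (MP_0b002e_co)
-/

set_option autoImplicit false

namespace Pool.Agent.Results.MP_0b002e_co.FractionalHaemers

open Pool.Agent.N703.HF

/-- For every field `F` the fractional Haemers bound over `F` is a spectral point, and its value at
the complement of the Kneser graph `K_{p:q}` is `p / q` for all `p ≥ 2 q ≥ 2`. -/
theorem result (F : Type*) [Field F] :
    IsSpectralPoint (fun V _ G => Hf F V G) ∧ KneserNormalised (fun V _ G => Hf F V G) :=
  ⟨Hf_isSpectralPoint F, Hf_kneserNormalised F⟩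

end Pool.Agent.Results.MP_0b002e_co.FractionalHaemers
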